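import Pool.Agent.K3h21.AV.Win5

set_option autoImplicit false

/-!
# Clusters of almost primes `k ^ 2 + 3 k + 1` in almost all windows of length a power of the logarithm
-/

namespace Pool.Agent.Results.MP_d57abb_nt.AlmostAllWindows

open Filter Polynomial

/-- `k ^ 2 + 3 k + 1` has at most five prime factors, counted with multiplicity, all of them at least `w`. -/
def AlmostPrimeValue (w : ℝ) (k : ℕ) : Prop :=
  (k ^ 2 + 3 * k + 1).primeFactorsList.length ≤ 5 ∧ ∀ p : ℕ, p.Prime → p ∣ k ^ 2 + 3 * k + 1 → w ≤ p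

theorem ev (n : ℤ) : (X ^ 2 + C 3 * X + C 1 : ℤ[X]).eval n = n ^ 2 + 3 * n + 1 := by
  simp only [eval_add, eval_pow, eval_mul, eval_X, eval_C]

theorem evn (n : ℕ) : ((X ^ 2 + C 3 * X + C 1 : ℤ[X]).eval (n : ℤ)).natAbs = n ^ 2 + 3 * n + 1 := by
  rw [ev]
  have : (n : ℤ) ^ 2 + 3 * n + 1 = ((n ^ 2 + 3 * n + 1 : ℕ) : ℤ) := by push_cast; ring
  rw [this, Int.natAbs_natCast]

theorem deg : (X ^ 2 + C 3 * X + C 1 : ℤ[X]).natDegree = 2 := by
  have := natDegree_quadratic (R := ℤ) (a := 1) (b := 3) (c := 1) one_ne_zero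
  rwa [C_1, one_mul] at this

theorem mon : (X ^ 2 + C 3 * X + C 1 : ℤ[X]).Monic := by
  have := leadingCoeff_quadratic (R := ℤ) (a := 1) (b := 3) (c := 1) one_ne_zero
  rw [C_1, one_mul] at this
  exact this

theorem irr : Irreducible (X ^ 2 + C 3 * X + C 1 : ℤ[X]) := by
  rw [Monic.irreducible_iff_roots_eq_zero_of_degree_le_three mon (by rw [deg]) (by rw [deg]; norm_num)]
  rw [Multiset.eq_zero_iff_forall_notMem]
  intro x hx
  rw [mem_roots mon.ne_zero, IsRoot.def, ev] at hx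
  have h1 : x * (x + 3) = -1 := by linarith
  rcases Int.mul_eq_neg_one_iff_eq_one_or_neg_one.1 h1 with ⟨h2, h3⟩ | ⟨h2, h3⟩ <;> omega

/-- **Clusters of almost primes `k ^ 2 + 3 k + 1` in almost all very short windows.** For every `m` there is `K` such that
for every finite set `S` of at least `K` natural numbers and every `B` there are `C` and a set `E` of natural numbers with at
most `X / (log X) ^ B` elements up to `X`, for all large `X`, such that for every natural number `x` not in `E` there are a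
subset `H` of `S` with `m` elements and `n` such that for all `h ∈ H` the number `k = n + h` satisfies
`x < k ≤ x + (log x) ^ C` and `k ^ 2 + 3 k + 1` is a product of at most five primes, all of them at least `x ^ (49 / 400)`. -/
theorem result (m : ℕ) :
    ∃ K : ℕ, ∀ S : Finset ℕ, K ≤ S.card → ∀ B : ℕ, ∃ (C : ℕ) (E : Set ℕ),
      (∀ᶠ X : ℕ in atTop, ((E ∩ Set.Iic X).ncard : ℝ) ≤ X / Real.log X ^ B) ∧
      ∀ x : ℕ, x ∉ E → ∃ H ⊆ S, H.card = m ∧ ∃ n : ℕ, ∀ h ∈ H,
        x < n + h ∧ ((n + h : ℕ) : ℝ) ≤ x + Real.log x ^ C ∧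
          AlmostPrimeValue ((x : ℝ) ^ ((49 : ℝ) / 400)) (n + h) := by
  obtain ⟨K, hK⟩ := Pool.Agent.K3h21.AV.winPoly (X ^ 2 + C 3 * X + C 1) irr (by rw [deg]; norm_num)
    (fun p hp => ⟨0, by
      rw [ev]
      norm_num
      intro h
      have := Int.eq_one_of_dvd_one (by positivity) h
      have := hp.one_lt
      omega⟩) 5 (49 / 100) (by norm_num) (by norm_num) (by rw [deg]; norm_num) m
  refine ⟨K, fun S hS B => ?_⟩
  obtain ⟨C', E, h1, h2⟩ := hK S hS B
  refine ⟨C', E, h1, fun x hx => ?_⟩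
  obtain ⟨H, hH, hHc, n, hn, hall⟩ := h2 x hx
  refine ⟨H, hH, hHc, n, fun h hh => ?_⟩
  obtain ⟨g1, g2, g3⟩ := hall h hh
  rw [evn] at g2 g3
  refine ⟨by omega, g1, g2, fun p hp hpd => ?_⟩
  have := g3 p hp hpd
  rwa [show (49 : ℝ) / 100 / 4 = 49 / 400 by norm_num] at this

end Pool.Agent.Results.MP_d57abb_nt.AlmostAllWindows
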