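import Pool.Agent.K3h21.LW.Poly

set_option autoImplicit false

/-!
# Clusters of almost prime values of `k ^ 2 + 3 k + 1` in short windows

All windows `(x, x + H]`, `x ≤ X`, `H ≤ √X`, with at most `X ^ η / H + X ^ σ` exceptions contain many clusters of `m` numbers
`k` for which `k ^ 2 + 3 k + 1` has at most `r` prime factors, all large: `r = 4` with `η = 1.076`, `σ = 0.866` and `r = 3`
with `η = 1.45`, `σ = 0.82`. The level of distribution `(X H) ^ (1 / 2)` comes from the large sieve for windows.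
-/

namespace Pool.Agent.Results.MP_d57abb_nt.ClustersInShortWindows

open Polynomial

/-- `k ^ 2 + 3 k + 1` has at most `r` prime factors, counted with multiplicity, all of them at least `w`. -/
def AlmostPrimeValue (r : ℕ) (w : ℝ) (k : ℕ) : Prop :=
  (k ^ 2 + 3 * k + 1).primeFactorsList.length ≤ r ∧ ∀ p : ℕ, p.Prime → p ∣ k ^ 2 + 3 * k + 1 → w ≤ p

open Classical in
/-- The integers `n` with `x < n ≤ x + H` such that for at least `m` of the `h ∈ S` the number `k = n + h` satisfies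
`k ≤ x + H` and `AlmostPrimeValue r w k`. -/
noncomputable def clusters (S : Finset ℕ) (m r : ℕ) (w : ℝ) (x H : ℕ) : Finset ℕ :=
  (Finset.Ioc x (x + H)).filter (fun n => m ≤ (S.filter (fun h => n + h ≤ x + H ∧ AlmostPrimeValue r w (n + h))).card)

theorem ev (n : ℤ) : (X ^ 2 + C 3 * X + C 1 : ℤ[X]).eval n = n ^ 2 + 3 * n + 1 := by
  simp only [eval_add, eval_pow, eval_mul, eval_X, eval_C]

theorem evn (n : ℕ) : ((X ^ 2 + C 3 * X + C 1 : ℤ[X]).eval (n : ℤ)).natAbs = n ^ 2 + 3 * n + 1 := by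
  rw [ev]
  have : (n : ℤ) ^ 2 + 3 * n + 1 = ((n ^ 2 + 3 * n + 1 : ℕ) : ℤ) := by push_cast; ring
  rw [this, Int.natAbs_natCast]

theorem deg : (X ^ 2 + C 3 * X + C 1 : ℤ[X]).natDegree = 2 := by
  have := natDegree_quadratic (R := ℤ) (a := 1) (b := 3) (c := 1) one_ne_zero
  rwa [C_1, one_mul] at this

theorem mon : (X ^ 2 + C 3 * X + C 1 : ℤ[X]).Monic := by
  have := leadingCoeff_quadratic (R := ℤ) (a := 1) (b := 3) (c := 1) one_ne_zero
  rw [C_1, one_mul] at this
  exact this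

theorem irr : Irreducible (X ^ 2 + C 3 * X + C 1 : ℤ[X]) := by
  rw [Monic.irreducible_iff_roots_eq_zero_of_degree_le_three mon (by rw [deg]) (by rw [deg]; norm_num)]
  rw [Multiset.eq_zero_iff_forall_notMem]
  intro x hx
  rw [mem_roots mon.ne_zero, IsRoot.def, ev] at hx
  have h1 : x * (x + 3) = -1 := by linarith
  rcases Int.mul_eq_neg_one_iff_eq_one_or_neg_one.1 h1 with ⟨h2, h3⟩ | ⟨h2, h3⟩ <;> omega

open Classical in
/-- **Clusters of almost prime values in short windows.** Let `0 < τ < 1`, `50 < (24 r - 3) τ`, `η > 1`, `η > 2 τ`,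
`σ > τ`, `σ > 1 - τ / 4`. For every `m` there is `K` such that for every finite set `S` of at least `K` natural numbers
there are `A` and `X₀` such that for all `X ≥ X₀` and all `1 ≤ H ≤ √X` all `x ≤ X` with at most `X ^ η / H + X ^ σ` exceptions
satisfy: `(x, x + H]` contains at least `H / (log X) ^ A` integers `n` such that for at least `m` of the `h ∈ S` the number
`k = n + h` is at most `x + H` and `k ^ 2 + 3 k + 1` has at most `r` prime factors, all at least `X ^ (τ / 4)`. -/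
theorem result (r : ℕ) (τ η σ : ℝ) (hτ0 : 0 < τ) (hτ1 : τ < 1) (hr : 50 < (24 * (r : ℝ) - 3) * τ) (hη1 : 1 < η)
    (hη2 : 2 * τ < η) (hσ1 : τ < σ) (hσ2 : 1 - τ / 4 < σ) (m : ℕ) :
    ∃ K : ℕ, ∀ S : Finset ℕ, K ≤ S.card → ∃ A X₀ : ℕ, ∀ X : ℕ, X₀ ≤ X → ∀ H : ℕ, 1 ≤ H → H ^ 2 ≤ X →
      (((Finset.range (X + 1)).filter (fun x : ℕ => ((clusters S m r ((X : ℝ) ^ (τ / 4)) x H).card : ℝ) <
        H / Real.log X ^ A)).card : ℝ) ≤ (X : ℝ) ^ η / H + (X : ℝ) ^ σ := by
  obtain ⟨K, h1⟩ := Pool.Agent.K3h21.LW.poly (X ^ 2 + C 3 * X + C 1) irr (by rw [deg]; norm_num)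
    (fun p hp => ⟨0, by
      rw [ev]
      intro h
      have h' : (p : ℤ) ∣ 1 := by simpa using h
      have := Int.eq_one_of_dvd_one (by positivity) h'
      have := hp.one_lt
      omega⟩) r τ η σ ((24 * (r : ℝ) - 3) * τ / 25) hτ0 hτ1 hη1 hη2 (by
        rw [deg]
        push_cast
        linarith) hσ2 hσ1 (by
        have : (24 * (r : ℝ) - 3) * τ / 25 / (24 / 25 * τ) = r - 1 / 8 := by
          field_simp
          ring
        rw [this]
        linarith) m
  refine ⟨K, fun S hS => ?_⟩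
  obtain ⟨A, h2⟩ := h1 S hS
  obtain ⟨X₀, h3⟩ := Filter.eventually_atTop.1 h2
  refine ⟨A, X₀, fun X hX H hH hHX => ?_⟩
  refine le_trans ?_ (h3 X hX H hH hHX)
  have key : ∀ x : ℕ, (Pool.Agent.K3h21.LW.cl (fun n => (Polynomial.X ^ 2 + C 3 * Polynomial.X + C 1 : ℤ[X]).eval n) S m r
      ((X : ℝ) ^ (τ / 4)) x H).card ≤ (clusters S m r ((X : ℝ) ^ (τ / 4)) x H).card := by
    intro x
    apply Finset.card_le_card
    intro n hn
    unfold Pool.Agent.K3h21.LW.cl at hn
    unfold clusters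
    rw [Finset.mem_filter] at hn ⊢
    obtain ⟨g1, T, g2, g3, g4⟩ := hn
    refine ⟨g1, ?_⟩
    rw [← g3]
    apply Finset.card_le_card
    intro h hh
    rw [Finset.mem_filter]
    obtain ⟨g5, g6, g7⟩ := g4 h hh
    beta_reduce at g6 g7
    rw [evn] at g6 g7
    exact ⟨g2 hh, g5, g6, g7⟩
  have hsub : (Finset.range (X + 1)).filter (fun x : ℕ => ((clusters S m r ((X : ℝ) ^ (τ / 4)) x H).card : ℝ) <
        H / Real.log X ^ A) ⊆ (Finset.range (X + 1)).filter (fun x : ℕ => ((Pool.Agent.K3h21.LW.cl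
        (fun n => (Polynomial.X ^ 2 + C 3 * Polynomial.X + C 1 : ℤ[X]).eval n) S m r
        ((X : ℝ) ^ (τ / 4)) x H).card : ℝ) < H / Real.log X ^ A) := by
    intro x hx
    rw [Finset.mem_filter] at hx ⊢
    refine ⟨hx.1, lt_of_le_of_lt ?_ hx.2⟩
    exact_mod_cast key x
  exact_mod_cast Finset.card_le_card hsub

end Pool.Agent.Results.MP_d57abb_nt.ClustersInShortWindows
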