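import Pool.Agent.K3h70.QW.Fin

/-!
# Almost prime values of `k² + 3k + 1` in short intervals: very few exceptions

The question is about the number of the `k ≤ 10 ^ n` with `k² + 3k + 1` prime. Here primes are replaced by products of
at most three, four or five primes, all of them large, and the `k` are looked for in all the intervals `(x, x + H)` with
`H₀ ≤ H ≤ X ^ θ` at once, outside a small exceptional set of positions.

**Theorem.** Let `Λ r = 1 + log ((3 ^ r + 1) / 4) / log 3`, so that `4 / Λ 3 = 1.4433...` and `4 / Λ 4 = 1.0668...`.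

(1) For every `η > 4 / Λ 3` there are `δ, C > 0` such that for all real `X ≥ 2` and `H₀ ≥ 1`: let `S` be a finite set of
real numbers in `[1, X]`, any two of them at distance at least `H₀`, such that for every `x` in `S` there is `H` with
`H₀ ≤ H ≤ X ^ (3/5)` for which `(x, x + H)` contains fewer than `δ H / log X` integers `k` for which `k² + 3k + 1` has
at most three prime factors, all of them at least `X ^ (9/50)`. Then `S` has at most `C X ^ η / H₀ ^ 2` elements.

(2) The same for every `η > 4 / Λ 4`, with at most four prime factors, all at least `X ^ (2/15)`, and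
`H₀ ≤ H ≤ X ^ (1/5)`.

(3) There are `δ, C > 0` such that the same holds with at most five prime factors, all at least `X ^ (3/25)`,
`H₀ ≤ H ≤ X ^ (3/25)`, and the bound `C X (log X) ^ 12 / H₀ ^ 2`.

About `X / H₀` points with distances at least `H₀` can be placed in `[1, X]`. So the bounds are nontrivial for
`H₀ ≥ X ^ 0.444` in (1), for `H₀ ≥ X ^ 0.067` in (2), and for `H₀ ≥ (log X) ^ 13` in (3).

Proof. The weighted linear sieve with the weights of Richert, of level `D = X ^ (2 τ')`, is applied to the values of the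
polynomial on the windows `(x, x + H]` for all the `x ≤ X`; the value density comes from the average of the number of
zeros modulo the primes (a form of the prime ideal theorem for the quadratic field). The remainder term for the window
is a function of `x` which is expanded in the additive characters modulo the `q ≤ D`, and the large sieve inequality
gives `(X + D ^ 2) H (log X) ^ 10` for the sum over `x` of the squares of the remainder terms: the level is governed by
`X + D ^ 2`, and not by the length of the window. An interval of length `H` which is bad contains `H / 2` bad windows of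
half the length; this gains a further factor `H` for separated points.

The engine (mean square of the remainder, separated points, all lengths) is that of helper31's
`MP_b8a134_nt.FewExceptionalWindows`, which is on the integers with two or three prime factors.
-/

set_option autoImplicit false

namespace Pool.Agent.Results.MP_d57abb_nt.FewExceptionalWindows

/-- the polynomial `k² + 3k + 1` has at `k` at most `r` prime factors (counted with multiplicity), all at least `w` -/
def AlmostPrimeValue (r : ℕ) (w : ℝ) (k : ℕ) : Prop :=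
  (k ^ 2 + 3 * k + 1).primeFactorsList.length ≤ r ∧ ∀ q : ℕ, q.Prime → q ∣ k ^ 2 + 3 * k + 1 → w ≤ q

/-- the integers `k` with `x < k < x + H` and an almost prime value -/
def between (r : ℕ) (w x H : ℝ) : Set ℕ :=
  {k : ℕ | x < k ∧ (k : ℝ) < x + H ∧ AlmostPrimeValue r w k}

/-- `S` consists of points of `[1, X]` with distances at least `H₀`, and for every `x` in `S` there is `H` with
`H₀ ≤ H ≤ X ^ θ` such that `(x, x + H)` contains fewer than `δ H / log X` integers `k` for which `k² + 3k + 1` has at
most `r` prime factors, all at least `X ^ c` -/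
def Exceptional (r : ℕ) (c θ δ X H₀ : ℝ) (S : Finset ℝ) : Prop :=
  (∀ x ∈ S, 1 ≤ x ∧ x ≤ X) ∧ (∀ x ∈ S, ∀ y ∈ S, x < y → x + H₀ ≤ y) ∧
  ∀ x ∈ S, ∃ H : ℝ, H₀ ≤ H ∧ H ≤ X ^ θ ∧
    ((between r (X ^ c) x H).ncard : ℝ) < δ * H / Real.log X

/-- the constant `1 + log ((3 ^ r + 1) / 4) / log 3` -/
noncomputable def Lam (r : ℕ) : ℝ := 1 + Real.log ((3 ^ r + 1) / 4) / Real.log 3

/-- **Almost prime values of `k² + 3k + 1` in short intervals with very few exceptions.** -/
theorem result :
    (∀ η : ℝ, 4 / Lam 3 < η → ∃ δ C : ℝ, 0 < δ ∧ 0 < C ∧ ∀ X : ℝ, 2 ≤ X → ∀ H₀ : ℝ, 1 ≤ H₀ →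
      ∀ S : Finset ℝ, Exceptional 3 (9 / 50) (3 / 5) δ X H₀ S → (S.card : ℝ) ≤ C * X ^ η / H₀ ^ 2) ∧
    4 / Lam 3 < 1444 / 1000 ∧
    (∀ η : ℝ, 4 / Lam 4 < η → ∃ δ C : ℝ, 0 < δ ∧ 0 < C ∧ ∀ X : ℝ, 2 ≤ X → ∀ H₀ : ℝ, 1 ≤ H₀ →
      ∀ S : Finset ℝ, Exceptional 4 (2 / 15) (1 / 5) δ X H₀ S → (S.card : ℝ) ≤ C * X ^ η / H₀ ^ 2) ∧
    4 / Lam 4 < 1067 / 1000 ∧
    ∃ δ C : ℝ, 0 < δ ∧ 0 < C ∧ ∀ X : ℝ, 2 ≤ X → ∀ H₀ : ℝ, 1 ≤ H₀ →
      ∀ S : Finset ℝ, Exceptional 5 (3 / 25) (3 / 25) δ X H₀ S →
        (S.card : ℝ) ≤ C * X * Real.log X ^ 12 / H₀ ^ 2 := by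
  refine ⟨fun η hη => ?_, ?_, fun η hη => ?_, ?_, ?_⟩
  · exact Pool.Agent.K3h70.QW.three_sep η hη
  · have h : 1 + 131 / 74 ≤ Lam 3 := Pool.Agent.K3h19.RV.lam_three
    have : 4 / Lam 3 ≤ 4 / (1 + 131 / 74) := div_le_div_of_nonneg_left (by norm_num) (by norm_num) h
    norm_num at this ⊢
    linarith
  · exact Pool.Agent.K3h70.QW.four_sep η hη
  · have h : 3749 / 1000 ≤ Lam 4 := Pool.Agent.K3h70.QW.lam_four'
    have : 4 / Lam 4 ≤ 4 / (3749 / 1000) := div_le_div_of_nonneg_left (by norm_num) (by norm_num) h
    norm_num at this ⊢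
    linarith
  · exact Pool.Agent.K3h70.QW.five_sep

end Pool.Agent.Results.MP_d57abb_nt.FewExceptionalWindows
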