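import Pool.Agent.K3h21.CB.App4

set_option autoImplicit false

/-!
# Shifts of one prime: almost primes `k ^ 2 + 3 k + 1` with `k = p + h`

For every `m` there is `K` such that for any `K` integers `h` in `[0, X]` there are many primes `p` in `(X, 2 X]` for which
`k ^ 2 + 3 k + 1` has at most five prime factors for at least `m` of the numbers `k = p + h`.
-/

namespace Pool.Agent.Results.MP_d57abb_nt.ShiftsOfOnePrime

open Polynomial
open Pool.Agent.Y677.RSZ (rt)

/-- `k ^ 2 + 3 k + 1` has at most five prime factors, counted with multiplicity, all of them at least `w`. -/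
def AlmostPrimeValue (w : ℝ) (k : ℕ) : Prop :=
  (k ^ 2 + 3 * k + 1).primeFactorsList.length ≤ 5 ∧ ∀ p : ℕ, p.Prime → p ∣ k ^ 2 + 3 * k + 1 → w ≤ p

theorem ev (n : ℤ) : (X ^ 2 + C 3 * X + C 1 : ℤ[X]).eval n = n ^ 2 + 3 * n + 1 := by
  simp only [eval_add, eval_pow, eval_mul, eval_X, eval_C]

theorem evn (n : ℕ) : ((X ^ 2 + C 3 * X + C 1 : ℤ[X]).eval (n : ℤ)).natAbs = n ^ 2 + 3 * n + 1 := by
  rw [ev]
  have : (n : ℤ) ^ 2 + 3 * n + 1 = ((n ^ 2 + 3 * n + 1 : ℕ) : ℤ) := by push_cast; ring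
  rw [this, Int.natAbs_natCast]

theorem deg : (X ^ 2 + C 3 * X + C 1 : ℤ[X]).natDegree = 2 := by
  have := natDegree_quadratic (R := ℤ) (a := 1) (b := 3) (c := 1) one_ne_zero
  rwa [C_1, one_mul] at this

theorem mon : (X ^ 2 + C 3 * X + C 1 : ℤ[X]).Monic := by
  have := leadingCoeff_quadratic (R := ℤ) (a := 1) (b := 3) (c := 1) one_ne_zero
  rw [C_1, one_mul] at this
  exact this

theorem irr : Irreducible (X ^ 2 + C 3 * X + C 1 : ℤ[X]) := by
  rw [Monic.irreducible_iff_roots_eq_zero_of_degree_le_three mon (by rw [deg]) (by rw [deg]; norm_num)]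
  rw [Multiset.eq_zero_iff_forall_notMem]
  intro x hx
  rw [mem_roots mon.ne_zero, IsRoot.def, ev] at hx
  have h1 : x * (x + 3) = -1 := by linarith
  rcases Int.mul_eq_neg_one_iff_eq_one_or_neg_one.1 h1 with ⟨h2, h3⟩ | ⟨h2, h3⟩ <;> omega

theorem eq_of_dvd (q a b : ℕ) (ha : a < q) (hb : b < q) (h : (q : ℤ) ∣ (a : ℤ) - b) : a = b := by
  have h1 : b ≡ a [MOD q] := Nat.modEq_iff_dvd.2 h
  unfold Nat.ModEq at h1
  rw [Nat.mod_eq_of_lt ha, Nat.mod_eq_of_lt hb] at h1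
  exact h1.symm

theorem roots2 (q : ℕ) (hq : q.Prime) : rt (fun n => (X ^ 2 + C 3 * X + C 1 : ℤ[X]).eval n) q ≤ 2 := by
  unfold rt
  by_contra hcon
  push Not at hcon
  obtain ⟨a, ha, b, hb, c, hc, hab, hac, hbc⟩ := Finset.two_lt_card.1 hcon
  rw [Finset.mem_filter, Finset.mem_range, ev] at ha hb hc
  have hqp : Prime (q : ℤ) := Nat.prime_iff_prime_int.1 hq
  have key : ∀ x y : ℕ, x < q → y < q → x ≠ y → (q : ℤ) ∣ (x : ℤ) ^ 2 + 3 * x + 1 → (q : ℤ) ∣ (y : ℤ) ^ 2 + 3 * y + 1 →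
      (q : ℤ) ∣ (x : ℤ) + y + 3 := by
    intro x y hx hy hxy h1 h2
    have h3 := dvd_sub h1 h2
    have h4 : (x : ℤ) ^ 2 + 3 * x + 1 - (y ^ 2 + 3 * y + 1) = (x - y) * (x + y + 3) := by ring
    rw [h4] at h3
    rcases hqp.dvd_or_dvd h3 with h5 | h5
    · exact absurd (eq_of_dvd q x y hx hy h5) hxy
    · exact h5
  have h1 := key a b ha.1 hb.1 hab ha.2 hb.2
  have h2 := key a c ha.1 hc.1 hac ha.2 hc.2
  have h3 := dvd_sub h1 h2
  have h4 : (a : ℤ) + b + 3 - (a + c + 3) = b - c := by ring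
  rw [h4] at h3
  exact hbc (eq_of_dvd q b c hb.1 hc.1 h3)

theorem roots_small (q : ℕ) (hq : q.Prime) :
    rt (fun n => (X ^ 2 + C 3 * X + C 1 : ℤ[X]).eval n) q + 2 ≤ q := by
  by_cases h4 : 4 ≤ q
  · have := roots2 q hq
    omega
  · have h2 := hq.two_le
    have h0 : rt (fun n => (X ^ 2 + C 3 * X + C 1 : ℤ[X]).eval n) q = 0 := by
      unfold rt
      rw [Finset.card_eq_zero, Finset.filter_eq_empty_iff]
      intro c hc
      rw [Finset.mem_range] at hc
      beta_reduce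
      rw [ev]
      have hq3 : q = 2 ∨ q = 3 := by omega
      rcases hq3 with rfl | rfl
      · interval_cases c <;> norm_num
      · interval_cases c <;> norm_num
    omega

open Classical in
/-- **Shifts of one prime.** For every `m` there are `K`, `A`, `X₀` such that for all `Y ≥ X₀` and every set `S` of at least
`K` integers in `[0, Y]` there are at least `Y / (log Y) ^ A` primes `p` in `(Y, 2 Y]` such that for at least `m` of the
`h ∈ S` the value of `k ^ 2 + 3 k + 1` at `k = p + h` has at most five prime factors, counted with multiplicity, all of them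
at least `Y ^ (49 / 400)`. -/
theorem result (m : ℕ) :
    ∃ K A X₀ : ℕ, ∀ Y : ℕ, X₀ ≤ Y → ∀ S : Finset ℕ, K ≤ S.card → (∀ h ∈ S, h ≤ Y) →
      (Y : ℝ) / Real.log Y ^ A ≤
        (((Finset.Ioc Y (2 * Y)).filter (fun p : ℕ => p.Prime ∧
          m ≤ (S.filter (fun h => AlmostPrimeValue ((Y : ℝ) ^ ((49 : ℝ) / 400)) (p + h))).card)).card : ℝ) := by
  obtain ⟨K, A, X₀, h⟩ := Pool.Agent.K3h21.CB.polyP (X ^ 2 + C 3 * X + C 1) irr (by rw [deg]; norm_num)
    (fun h h0 => by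
      have h1 := evn h
      rw [h0] at h1
      simp at h1)
    roots_small 5 (49 / 100) (by norm_num) (by norm_num) (by rw [deg]; norm_num) m
  refine ⟨K, A, X₀, fun Y hY S hS hSe => (h Y hY S hS hSe).trans ?_⟩
  have hsub := Finset.card_le_card (s := (Finset.Ioc Y (2 * Y)).filter (fun p : ℕ => p.Prime ∧ ∃ H ⊆ S, H.card = m ∧
      ∀ h ∈ H, Pool.Agent.K3h21.AV.AP 5 ((Y : ℝ) ^ ((49 : ℝ) / 100 / 4))
        ((X ^ 2 + C 3 * X + C 1 : ℤ[X]).eval ((p + h : ℕ) : ℤ)).natAbs))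
    (t := (Finset.Ioc Y (2 * Y)).filter (fun p : ℕ => p.Prime ∧
          m ≤ (S.filter (fun h => AlmostPrimeValue ((Y : ℝ) ^ ((49 : ℝ) / 400)) (p + h))).card)) (by
      intro p hp
      rw [Finset.mem_filter] at hp ⊢
      obtain ⟨h1, h2, H, hH, hHc, hall⟩ := hp
      refine ⟨h1, h2, ?_⟩
      rw [← hHc]
      apply Finset.card_le_card
      intro n hn
      rw [Finset.mem_filter]
      refine ⟨hH hn, ?_⟩
      obtain ⟨g1, g2⟩ := hall n hn
      rw [evn] at g1 g2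
      refine ⟨g1, fun q hq hqd => ?_⟩
      have := g2 q hq hqd
      rwa [show (49 : ℝ) / 100 / 4 = 49 / 400 by norm_num] at this)
  exact_mod_cast hsub

end Pool.Agent.Results.MP_d57abb_nt.ShiftsOfOnePrime
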